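import Mathlib
import Pool.Agent.Helper405.AreaA

set_option autoImplicit false
open Complex MeasureTheory Filter Topology Metric Polynomial

/-!
# MP_d3fa2a_an: maximal integral means of univalent polynomials, degrees two and three

Degree two, all `q > 0`: univalence gives `|a₂| ≤ 1/2`, and `∫ |1 + s e^{it}|^q dt` increases
with `s` by Parseval for `(1 + z)^{q/2}`.
Degree three, even `q = 2k`: Dieudonné's criterion gives `|a₃| ≤ 1/3` and `|a₂| ≤ 2√2/3`; the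
coefficients of `(1 + a₂ z + a₃ z²)^k` are majorised by those of `(1 + (2√2/3) z + z²/3)^k`, and
`z + (2√2/3) z² + z³/3` is univalent.
-/

namespace Pool.Agent.Results.MP_d3fa2a_an.SmallDegree
open Pool.Agent.Helper405.Area

/-- The class `𝒫_n`: polynomials `z + a₂ z² + … + a_n z^n` univalent in the unit disc. -/
def IsUnivPoly (n : ℕ) (p : ℂ[X]) : Prop :=
  p.natDegree ≤ n ∧ p.coeff 0 = 0 ∧ p.coeff 1 = 1 ∧
    Set.InjOn (fun z : ℂ => p.eval z) (ball 0 1)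

/-- The integral mean `I_q(p) = ∫_0^{2π} |p(e^{it})|^q dt`. -/
noncomputable def Iq (q : ℝ) (p : ℂ[X]) : ℝ :=
  ∫ t in (0:ℝ)..(2 * Real.pi), ‖p.eval (exp (t * I))‖ ^ q

/-! ### Parseval -/

lemma parseval_hasSum {c : ℕ → ℂ} {P : ℂ → ℂ} {s : ℝ} (hs0 : 0 ≤ s)
    (hsum : Summable fun j => ‖c j‖ * s ^ j)
    (hc : ∀ z, ‖z‖ = s → HasSum (fun j => c j * z ^ j) (P z)) :
    HasSum (fun j => ‖c j‖ ^ 2 * (s ^ 2) ^ j)
      ((2 * Real.pi)⁻¹ * ∫ θ in (0:ℝ)..(2 * Real.pi), ‖P (s * exp (θ * I))‖ ^ 2) := by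
  have h1 := parseval hs0 hsum hsum hc hc
  have h2 : (fun j : ℕ => (starRingEnd ℂ) (c j) * c j * ((s ^ (2 * j) : ℝ) : ℂ))
      = fun j : ℕ => ((‖c j‖ ^ 2 * (s ^ 2) ^ j : ℝ) : ℂ) := by
    funext j
    have h3 : ((‖c j‖ ^ 2 : ℝ) : ℂ) = (starRingEnd ℂ) (c j) * c j := by
      rw [← Complex.normSq_eq_norm_sq, Complex.normSq_eq_conj_mul_self]
    rw [ofReal_mul, h3, pow_mul]
  have h4 : (fun θ : ℝ => (starRingEnd ℂ) (P (circleMap 0 s θ)) * P (circleMap 0 s θ))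
      = fun θ : ℝ => ((‖P (s * exp (θ * I))‖ ^ 2 : ℝ) : ℂ) := by
    funext θ
    rw [← Complex.normSq_eq_norm_sq, Complex.normSq_eq_conj_mul_self]
    simp only [circleMap, zero_add]
  rw [h2, h4, intervalIntegral.integral_ofReal] at h1
  have h5 : (2 * Real.pi : ℂ)⁻¹ * ((∫ θ in (0:ℝ)..(2 * Real.pi), ‖P (s * exp (θ * I))‖ ^ 2 : ℝ) : ℂ)
      = (((2 * Real.pi)⁻¹ * ∫ θ in (0:ℝ)..(2 * Real.pi), ‖P (s * exp (θ * I))‖ ^ 2 : ℝ) : ℂ) := by
    push_cast
    ring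
  rw [h5] at h1
  have h6 := Complex.hasSum_re h1
  simpa only [ofReal_re] using h6

lemma parseval_poly (Q : ℂ[X]) {N : ℕ} (hN : Q.natDegree < N) :
    ∫ t in (0:ℝ)..(2 * Real.pi), ‖Q.eval (exp (t * I))‖ ^ 2
      = 2 * Real.pi * ∑ j ∈ Finset.range N, ‖Q.coeff j‖ ^ 2 := by
  have hz : ∀ j, j ∉ Finset.range N → Q.coeff j = 0 := by
    intro j hj
    rw [Finset.mem_range, not_lt] at hj
    exact Polynomial.coeff_eq_zero_of_natDegree_lt (by omega)
  have h1 := parseval_hasSum (c := fun j => Q.coeff j) (P := fun z => Q.eval z) (s := 1)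
    zero_le_one
    (summable_of_ne_finset_zero (s := Finset.range N) (by intro j hj; rw [hz j hj]; simp))
    (by
      intro z _
      show HasSum _ (Q.eval z)
      rw [Polynomial.eval_eq_sum_range' hN]
      apply hasSum_sum_of_ne_finset_zero
      intro j hj
      rw [hz j hj, zero_mul])
  have h2 : HasSum (fun j => ‖Q.coeff j‖ ^ 2 * ((1:ℝ) ^ 2) ^ j)
      (∑ j ∈ Finset.range N, ‖Q.coeff j‖ ^ 2 * ((1:ℝ) ^ 2) ^ j) := by
    apply hasSum_sum_of_ne_finset_zero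
    intro j hj
    rw [hz j hj]; simp
  have h3 := h1.unique h2
  simp only [ofReal_one, one_mul, one_pow, mul_one] at h3
  have := Real.pi_pos
  rw [← h3, ← mul_assoc, mul_inv_cancel₀ (by positivity), one_mul]

/-! ### Quadratics without zeros in the disc -/

lemma quad {B C : ℂ} (h : ∀ ζ : ℂ, ‖ζ‖ < 1 → 1 + B * ζ + C * ζ ^ 2 ≠ 0) :
    ‖C‖ ≤ 1 ∧ ‖B‖ ≤ 1 + ‖C‖ := by
  obtain ⟨s, hs⟩ := IsAlgClosed.exists_pow_nat_eq (B ^ 2 - 4 * C) (n := 2) zero_lt_two
  set u : ℂ := (-B + s) / 2 with hu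
  set v : ℂ := (-B - s) / 2 with hv
  have huv : u + v = -B := by rw [hu, hv]; ring
  have huvm : u * v = C := by
    rw [hu, hv]
    linear_combination (-1 / 4 : ℂ) * hs
  have root : ∀ x : ℂ, x ^ 2 + B * x + C = 0 → ‖x‖ ≤ 1 := by
    intro x hx
    by_contra hlt
    push Not at hlt
    have hx0 : x ≠ 0 := by
      intro h0; rw [h0, norm_zero] at hlt; linarith
    apply h x⁻¹ (by rw [norm_inv]; exact inv_lt_one_of_one_lt₀ hlt)
    field_simp
    linear_combination hx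
  have hB : B = -(u + v) := by rw [huv]; ring
  have h1 : ‖u‖ ≤ 1 := root u (by rw [hB, ← huvm]; ring)
  have h2 : ‖v‖ ≤ 1 := root v (by rw [hB, ← huvm]; ring)
  have hC : ‖C‖ = ‖u‖ * ‖v‖ := by rw [← huvm, norm_mul]
  have hBn : ‖B‖ ≤ ‖u‖ + ‖v‖ := by
    rw [hB, norm_neg]; exact norm_add_le _ _
  constructor
  · rw [hC]; nlinarith [norm_nonneg u, norm_nonneg v]
  · rw [hC]; nlinarith [norm_nonneg u, norm_nonneg v]

/-! ### Coefficient bounds for univalent polynomials of degree at most `2` and `3` -/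

lemma eval2 {p : ℂ[X]} (hp : IsUnivPoly 2 p) (z : ℂ) : p.eval z = z + p.coeff 2 * z ^ 2 := by
  rw [Polynomial.eval_eq_sum_range' (n := 3) (by have := hp.1; omega)]
  simp [Finset.sum_range_succ, hp.2.1, hp.2.2.1]

lemma eval3 {p : ℂ[X]} (hp : IsUnivPoly 3 p) (z : ℂ) :
    p.eval z = z + p.coeff 2 * z ^ 2 + p.coeff 3 * z ^ 3 := by
  rw [Polynomial.eval_eq_sum_range' (n := 4) (by have := hp.1; omega)]
  simp [Finset.sum_range_succ, hp.2.1, hp.2.2.1]

lemma bound_two {p : ℂ[X]} (hp : IsUnivPoly 2 p) : ‖p.coeff 2‖ ≤ 1 / 2 := by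
  by_contra hlt
  push Not at hlt
  set a := p.coeff 2 with ha
  have ha0 : a ≠ 0 := by intro h; rw [h, norm_zero] at hlt; linarith
  set c : ℂ := -1 / (2 * a) with hc
  have hcn : ‖c‖ < 1 := by
    rw [hc, norm_div, norm_neg, norm_one, norm_mul]
    have h2 : ‖(2:ℂ)‖ = 2 := by norm_num
    rw [h2, div_lt_one (by positivity)]
    linarith
  set δ : ℝ := (1 - ‖c‖) / 2 with hδ
  have hδ0 : 0 < δ := by rw [hδ]; linarith
  have hδn : ‖(δ : ℂ)‖ = δ := by rw [Complex.norm_real, Real.norm_of_nonneg hδ0.le]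
  have h1 : c + δ ∈ ball (0:ℂ) 1 := by
    rw [mem_ball_zero_iff]
    refine (norm_add_le _ _).trans_lt ?_
    rw [hδn, hδ]; linarith
  have h2 : c - δ ∈ ball (0:ℂ) 1 := by
    rw [mem_ball_zero_iff]
    refine (norm_sub_le _ _).trans_lt ?_
    rw [hδn, hδ]; linarith
  have h3 : p.eval (c + δ) = p.eval (c - δ) := by
    rw [eval2 hp, eval2 hp]
    have h4 : 2 * a * c = -1 := by rw [hc]; field_simp
    linear_combination (2 * (δ : ℂ)) * h4
  have h5 := hp.2.2.2 h1 h2 h3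
  have h6 : (δ : ℂ) = 0 := by linear_combination (1 / 2 : ℂ) * h5
  have h7 : δ = 0 := by exact_mod_cast h6
  linarith

/-- Dieudonné's criterion (necessity), in degree three. -/
lemma dieudonne {p : ℂ[X]} (hp : IsUnivPoly 3 p) {x y : ℝ} (hxy : x ^ 2 + y ^ 2 = 1) (hy : y ≠ 0)
    (ζ : ℂ) (hζ : ‖ζ‖ < 1) :
    1 + (2 * x * p.coeff 2) * ζ + ((4 * x ^ 2 - 1) * p.coeff 3) * ζ ^ 2 ≠ 0 := by
  intro h0
  by_cases hζ0 : ζ = 0
  · rw [hζ0] at h0; simp at h0
  set u : ℂ := ⟨x, y⟩ with hu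
  set v : ℂ := ⟨x, -y⟩ with hv
  have hun : ‖u‖ = 1 := by
    rw [Complex.norm_def, Complex.normSq_apply, hu]
    simp only
    rw [← pow_two, ← pow_two, hxy, Real.sqrt_one]
  have hvn : ‖v‖ = 1 := by
    rw [Complex.norm_def, Complex.normSq_apply, hv]
    simp only
    rw [← pow_two, ← pow_two, neg_sq, hxy, Real.sqrt_one]
  have huv : u + v = 2 * x := by
    apply Complex.ext
    · simp [hu, hv]; ring
    · simp [hu, hv]
  have huvm : u * v = 1 := by
    apply Complex.ext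
    · simp only [hu, hv, Complex.mul_re, Complex.one_re]; nlinarith
    · simp only [hu, hv, Complex.mul_im, Complex.one_im]; ring
  have h1 : ζ * u ∈ ball (0:ℂ) 1 := by rw [mem_ball_zero_iff, norm_mul, hun, mul_one]; exact hζ
  have h2 : ζ * v ∈ ball (0:ℂ) 1 := by rw [mem_ball_zero_iff, norm_mul, hvn, mul_one]; exact hζ
  have h3 : p.eval (ζ * u) = p.eval (ζ * v) := by
    rw [eval3 hp, eval3 hp]
    linear_combination (ζ * (u - v)) * h0
      + (p.coeff 2 * ζ ^ 2 * (u - v) + p.coeff 3 * ζ ^ 3 * (u - v) * (u + v + 2 * x)) * huv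
      - (p.coeff 3 * ζ ^ 3 * (u - v)) * huvm
  have h5 := hp.2.2.2 h1 h2 h3
  have h6 : u = v := mul_left_cancel₀ hζ0 h5
  have h7 := congrArg Complex.im h6
  simp only [hu, hv] at h7
  exact hy (by linarith)

lemma bound_three_last {p : ℂ[X]} (hp : IsUnivPoly 3 p) : ‖p.coeff 3‖ ≤ 1 / 3 := by
  by_contra hlt
  push Not at hlt
  set b := ‖p.coeff 3‖ with hb
  have hb0 : 0 < b := by linarith
  set ε : ℝ := (3 * b - 1) / (8 * b) with hε
  have hε0 : 0 < ε := div_pos (by linarith) (by linarith)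
  have hε1 : ε < 1 := by rw [hε, div_lt_one (by linarith)]; linarith
  have h1 : (√(1 - ε)) ^ 2 + (√ε) ^ 2 = 1 := by
    rw [Real.sq_sqrt (by linarith), Real.sq_sqrt hε0.le]; ring
  have h2 := (quad (dieudonne hp h1 (Real.sqrt_pos.2 hε0).ne')).1
  rw [norm_mul] at h2
  have h3 : ‖(4 * ((√(1 - ε) : ℝ) : ℂ) ^ 2 - 1)‖ = 3 - 4 * ε := by
    have : (4 * ((√(1 - ε) : ℝ) : ℂ) ^ 2 - 1) = ((3 - 4 * ε : ℝ) : ℂ) := by
      rw [← ofReal_pow, Real.sq_sqrt (by linarith)]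
      push_cast; ring
    rw [this, Complex.norm_real, Real.norm_of_nonneg]
    have : ε < 3 / 8 := by
      rw [hε, div_lt_div_iff₀ (by linarith) (by norm_num)]; linarith
    linarith
  rw [h3] at h2
  have h4 : (3 - 4 * ε) * b = (3 * b + 1) / 2 := by
    rw [hε]; field_simp; ring
  rw [← hb, h4] at h2
  linarith

lemma bound_three_mid {p : ℂ[X]} (hp : IsUnivPoly 3 p) : ‖p.coeff 2‖ ≤ 2 * √2 / 3 := by
  have hs : √2 * √2 = 2 := Real.mul_self_sqrt (by norm_num)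
  have hs0 : 0 < √2 := by positivity
  have h1 : (√2 / 2) ^ 2 + (√2 / 2) ^ 2 = 1 := by nlinarith
  have h2 := (quad (dieudonne hp h1 (by positivity))).2
  have h3 := bound_three_last hp
  have e1 : ‖2 * ((√2 / 2 : ℝ) : ℂ) * p.coeff 2‖ = √2 * ‖p.coeff 2‖ := by
    have : 2 * ((√2 / 2 : ℝ) : ℂ) = ((√2 : ℝ) : ℂ) := by push_cast; ring
    rw [this, norm_mul, Complex.norm_real, Real.norm_of_nonneg hs0.le]
  have e2 : ‖(4 * ((√2 / 2 : ℝ) : ℂ) ^ 2 - 1) * p.coeff 3‖ = ‖p.coeff 3‖ := by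
    have : (4 * ((√2 / 2 : ℝ) : ℂ) ^ 2 - 1) = 1 := by
      rw [← ofReal_pow]
      have : (√2 / 2) ^ 2 = (1 / 2 : ℝ) := by nlinarith
      rw [this]; push_cast; norm_num
    rw [this, one_mul]
  rw [e1, e2] at h2
  have h4 : √2 * ‖p.coeff 2‖ ≤ 4 / 3 := by linarith
  have h5 : √2 * (√2 * ‖p.coeff 2‖) ≤ √2 * (4 / 3) := mul_le_mul_of_nonneg_left h4 hs0.le
  have h6 : √2 * (√2 * ‖p.coeff 2‖) = 2 * ‖p.coeff 2‖ := by rw [← mul_assoc, hs]
  linarith

/-! ### Majorants -/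

/-- The real polynomial `R` majorises the complex polynomial `P` coefficientwise. -/
def Maj (P : ℂ[X]) (R : ℝ[X]) : Prop := ∀ j, ‖P.coeff j‖ ≤ R.coeff j

lemma Maj.mul {P Q : ℂ[X]} {R S : ℝ[X]} (h1 : Maj P R) (h2 : Maj Q S) : Maj (P * Q) (R * S) := by
  intro j
  rw [Polynomial.coeff_mul, Polynomial.coeff_mul]
  refine (norm_sum_le _ _).trans (Finset.sum_le_sum fun x _ => ?_)
  rw [norm_mul]
  exact mul_le_mul (h1 _) (h2 _) (norm_nonneg _) ((norm_nonneg _).trans (h1 _))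

lemma Maj.pow {P : ℂ[X]} {R : ℝ[X]} (h1 : Maj P R) (k : ℕ) : Maj (P ^ k) (R ^ k) := by
  induction k with
  | zero =>
    intro j
    simp only [pow_zero, Polynomial.coeff_one]
    split_ifs <;> simp
  | succ k ih =>
    rw [pow_succ, pow_succ]
    exact ih.mul h1

/-- The real quadratic `1 + (2√2/3) X + X²/3`. -/
noncomputable def R3 : ℝ[X] := 1 + C (2 * √2 / 3) * X + C (1 / 3) * X ^ 2

/-- The quadratic `1 + a X + b X²`. -/
noncomputable def Q3 (a b : ℂ) : ℂ[X] := 1 + C a * X + C b * X ^ 2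

lemma natDegree_Q3 (a b : ℂ) : (Q3 a b).natDegree ≤ 2 := by
  unfold Q3
  compute_degree

lemma coeff_Q3 (a b : ℂ) (j : ℕ) :
    (Q3 a b).coeff j = if j = 0 then 1 else if j = 1 then a else if j = 2 then b else 0 := by
  unfold Q3
  rcases j with _ | _ | _ | j
  · simp
  · simp [Polynomial.coeff_one, Polynomial.coeff_X_pow, Polynomial.coeff_C]
  · simp [Polynomial.coeff_one, Polynomial.coeff_X, Polynomial.coeff_X_pow]
  · simp [Polynomial.coeff_one, Polynomial.coeff_X, Polynomial.coeff_X_pow]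

lemma coeff_R3 (j : ℕ) :
    R3.coeff j = if j = 0 then 1 else if j = 1 then 2 * √2 / 3 else if j = 2 then 1 / 3 else 0 := by
  unfold R3
  rcases j with _ | _ | _ | j
  · simp
  · simp [Polynomial.coeff_one, Polynomial.coeff_X_pow, Polynomial.coeff_C]
  · simp [Polynomial.coeff_one, Polynomial.coeff_X, Polynomial.coeff_X_pow]
  · simp [Polynomial.coeff_one, Polynomial.coeff_X, Polynomial.coeff_X_pow]

lemma maj_Q3 {a b : ℂ} (ha : ‖a‖ ≤ 2 * √2 / 3) (hb : ‖b‖ ≤ 1 / 3) : Maj (Q3 a b) R3 := by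
  intro j
  rw [coeff_Q3, coeff_R3]
  split_ifs
  · simp
  · exact ha
  · exact hb
  · simp

/-- The value of `M_{3,2k}`. -/
noncomputable def val3 (k : ℕ) : ℝ :=
  2 * Real.pi * ∑ j ∈ Finset.range (2 * k + 1), ((R3 ^ k).coeff j) ^ 2

lemma Iq_Q3 {p : ℂ[X]} {a b : ℂ} (hp : ∀ z : ℂ, p.eval z = z + a * z ^ 2 + b * z ^ 3) (k : ℕ) :
    Iq ((2 * k : ℕ) : ℝ) p
      = 2 * Real.pi * ∑ j ∈ Finset.range (2 * k + 1), ‖((Q3 a b) ^ k).coeff j‖ ^ 2 := by
  have hdeg : ((Q3 a b) ^ k).natDegree < 2 * k + 1 := by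
    have h1 := Polynomial.natDegree_pow_le (p := Q3 a b) (n := k)
    have h2 := natDegree_Q3 a b
    have h3 : k * (Q3 a b).natDegree ≤ k * 2 := Nat.mul_le_mul_left k h2
    omega
  rw [← parseval_poly _ hdeg]
  unfold Iq
  congr 1
  funext t
  have h1 : p.eval (exp (t * I)) = exp (t * I) * (Q3 a b).eval (exp (t * I)) := by
    rw [hp, Q3]
    simp
    ring
  rw [h1, norm_mul, Complex.norm_exp_ofReal_mul_I, one_mul, Real.rpow_natCast,
    Polynomial.eval_pow, norm_pow, ← pow_mul, mul_comm k 2]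

lemma Iq_le {p : ℂ[X]} (hp : IsUnivPoly 3 p) (k : ℕ) : Iq ((2 * k : ℕ) : ℝ) p ≤ val3 k := by
  rw [Iq_Q3 (eval3 hp) k, val3]
  have hm := (maj_Q3 (bound_three_mid hp) (bound_three_last hp)).pow k
  have := Real.pi_pos
  apply mul_le_mul_of_nonneg_left _ (by positivity)
  exact Finset.sum_le_sum fun j _ => pow_le_pow_left₀ (norm_nonneg _) (hm j) 2

/-! ### The extremal cubic -/

/-- The constant `2√2/3`. -/
noncomputable def al : ℝ := 2 * √2 / 3

lemma al_sq : al ^ 2 = 8 / 9 := by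
  have hs : √2 * √2 = 2 := Real.mul_self_sqrt (by norm_num)
  unfold al; nlinarith

lemma al_pos : 0 < al := by unfold al; positivity

/-- `z + (2√2/3) z² + z³/3`. -/
noncomputable def p3 : ℂ[X] := X + C (al : ℂ) * X ^ 2 + C (1 / 3 : ℂ) * X ^ 3

lemma p3_eval (z : ℂ) : p3.eval z = z + al * z ^ 2 + (1 / 3 : ℂ) * z ^ 3 := by
  unfold p3; simp

/-- The divided difference of `p3`. -/
noncomputable def dd (z w : ℂ) : ℂ := 1 + al * (z + w) + (z ^ 2 + z * w + w ^ 2) / 3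

lemma p3_sub (z w : ℂ) : p3.eval z - p3.eval w = (z - w) * dd z w := by
  rw [p3_eval, p3_eval, dd]; ring

/-- The derivative of `p3`. -/
noncomputable def dp (z : ℂ) : ℂ := 1 + 2 * al * z + z ^ 2

/-- Simpson's rule is exact. -/
lemma dd_simpson (z w : ℂ) : dd z w = (dp z + 4 * dp ((z + w) / 2) + dp w) / 6 := by
  rw [dd, dp, dp, dp]; ring

lemma normSq_lt {z : ℂ} (hz : z ∈ ball (0:ℂ) 1) : z.re ^ 2 + z.im ^ 2 < 1 := by
  rw [mem_ball_zero_iff] at hz
  have h1 : ‖z‖ ^ 2 < 1 := by nlinarith [norm_nonneg z]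
  rw [← Complex.normSq_eq_norm_sq, Complex.normSq_apply] at h1
  nlinarith

/-- On the upper half disc `Im ((2√2/3 + i/3) p3'(z)) > 0`. -/
lemma dp_upper {x y : ℝ} (hy : 0 < y) (hxy : x ^ 2 + y ^ 2 < 1) :
    0 < 6 * al * (x + al) * y + (x + al) ^ 2 + 1 / 9 - y ^ 2 := by
  have ha := al_sq
  have hap := al_pos
  rcases le_or_gt 0 (x + al) with hX | hX
  · by_cases hx : 0 ≤ x
    · nlinarith [mul_nonneg hX hy.le, mul_nonneg hx hap.le, mul_pos hap hy, sq_nonneg x]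
    · push Not at hx
      -- here `-al ≤ x < 0`
      have h1 : x ^ 2 ≤ 8 / 9 := by nlinarith
      -- y² vs (x²/8)
      rcases le_or_gt (3 * al * y) (-x) with hc | hc
      · -- small y : y² ≤ x²/8
        have h2 : 8 * y ^ 2 ≤ x ^ 2 := by
          have : (3 * al * y) ^ 2 ≤ (-x) ^ 2 := pow_le_pow_left₀ (by positivity) hc 2
          nlinarith
        have h3 : 0 ≤ 6 * al * (x + al) * y := by positivity
        nlinarith
      · have h4 : 0 ≤ (x + al) * (3 * al * y + x) := mul_nonneg hX (by linarith)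
        nlinarith
  · -- x < -al, so x² > 8/9 and y² < 1/9
    have hx : x < 0 := by linarith
    have h1 : 8 / 9 < x ^ 2 := by nlinarith
    have h2 : y ^ 2 < 1 / 9 := by nlinarith
    have h3 : 8 * y ^ 2 < x ^ 2 := by nlinarith
    have h4 : 3 * al * y < -x := by
      have : (3 * al * y) ^ 2 < (-x) ^ 2 := by nlinarith
      exact lt_of_pow_lt_pow_left₀ 2 (by linarith) this
    have h5 : 0 < (x + al) * (3 * al * y + x) := mul_pos_of_neg_of_neg hX (by linarith)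
    nlinarith

lemma im_dp (z : ℂ) : (((al : ℂ) + (1 / 3 : ℝ) * I) * dp z).im
    = (6 * al * (z.re + al) * z.im + (z.re + al) ^ 2 + 1 / 9 - z.im ^ 2) / 3 := by
  have ha := al_sq
  simp only [dp, pow_two, Complex.mul_im, Complex.add_im, Complex.add_re, Complex.mul_re,
    Complex.ofReal_re, Complex.ofReal_im, Complex.I_re, Complex.I_im, Complex.one_re,
    Complex.one_im, Complex.re_ofNat, Complex.im_ofNat]
  nlinarith

lemma dp_pos {z : ℂ} (hz : z ∈ ball (0:ℂ) 1) (him : 0 < z.im) :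
    0 < (((al : ℂ) + (1 / 3 : ℝ) * I) * dp z).im := by
  rw [im_dp]
  have := dp_upper him (normSq_lt hz)
  linarith

lemma dd_ne_upper {z w : ℂ} (hz : z ∈ ball (0:ℂ) 1) (hw : w ∈ ball (0:ℂ) 1) (h1 : 0 < z.im)
    (h2 : 0 < w.im) : dd z w ≠ 0 := by
  intro h0
  have hm : (z + w) / 2 ∈ ball (0:ℂ) 1 := by
    rw [mem_ball_zero_iff] at hz hw ⊢
    have h3 := norm_add_le z w
    rw [norm_div]
    have h4 : ‖(2:ℂ)‖ = 2 := by norm_num
    rw [h4]
    linarith
  have hmi : 0 < ((z + w) / 2).im := by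
    have : ((z + w) / 2).im = (z.im + w.im) / 2 := by simp
    rw [this]; linarith
  have e1 := dp_pos hz h1
  have e2 := dp_pos hw h2
  have e3 := dp_pos hm hmi
  have e4 : ((al : ℂ) + (1 / 3 : ℝ) * I) * dp z + 4 * (((al : ℂ) + (1 / 3 : ℝ) * I) * dp ((z + w) / 2))
      + ((al : ℂ) + (1 / 3 : ℝ) * I) * dp w = 0 := by
    have h5 := dd_simpson z w
    rw [h0] at h5
    linear_combination (-6 * ((al : ℂ) + (1 / 3 : ℝ) * I)) * h5
  have e5 := congrArg Complex.im e4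
  rw [Complex.add_im, Complex.add_im] at e5
  have e6 : (4 * (((al : ℂ) + (1 / 3 : ℝ) * I) * dp ((z + w) / 2))).im
      = 4 * (((al : ℂ) + (1 / 3 : ℝ) * I) * dp ((z + w) / 2)).im := by
    rw [show (4:ℂ) = ((4:ℝ) : ℂ) by norm_num, Complex.im_ofReal_mul]
  rw [e6, Complex.zero_im] at e5
  linarith

lemma dd_conj (z w : ℂ) :
    dd ((starRingEnd ℂ) z) ((starRingEnd ℂ) w) = (starRingEnd ℂ) (dd z w) := by
  simp only [dd, map_add, map_mul, map_div₀, map_pow, map_one, Complex.conj_ofReal, map_ofNat]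

lemma im_p3 (z : ℂ) :
    (p3.eval z).im = z.im * (1 + 2 * al * z.re + z.re ^ 2 - z.im ^ 2 / 3) := by
  rw [p3_eval, show (1 / 3 : ℂ) = ((1 / 3 : ℝ) : ℂ) by push_cast; ring]
  simp only [pow_succ, pow_zero, one_mul, Complex.mul_im, Complex.add_im, Complex.mul_re,
    Complex.ofReal_re, Complex.ofReal_im]
  ring

lemma factor_pos {z : ℂ} (hz : z ∈ ball (0:ℂ) 1) :
    0 < 1 + 2 * al * z.re + z.re ^ 2 - z.im ^ 2 / 3 := by
  have h := normSq_lt hz
  have ha := al_sq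
  nlinarith [sq_nonneg (z.re + 3 / 4 * al)]

lemma dd_real {z w : ℂ} (hz : z.im = 0) (hw : w.im = 0) : dd z w ≠ 0 := by
  intro h0
  have ha := al_sq
  obtain ⟨x, rfl⟩ : ∃ x : ℝ, z = (x : ℂ) := ⟨z.re, by apply Complex.ext <;> simp [hz]⟩
  obtain ⟨y, rfl⟩ : ∃ x : ℝ, w = (x : ℂ) := ⟨w.re, by apply Complex.ext <;> simp [hw]⟩
  have h1 : 1 + al * (x + y) + (x ^ 2 + x * y + y ^ 2) / 3 = 0 := by
    have : ((1 + al * (x + y) + (x ^ 2 + x * y + y ^ 2) / 3 : ℝ) : ℂ) = 0 := by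
      rw [← h0, dd]; push_cast; ring
    exact_mod_cast this
  nlinarith [sq_nonneg (x + al), sq_nonneg (y + al), sq_nonneg ((x + y) / 2 + al)]

lemma p3_inj : Set.InjOn (fun z : ℂ => p3.eval z) (ball 0 1) := by
  intro z hz w hw h
  by_contra hne
  have h : p3.eval z = p3.eval w := h
  have h1 : (z - w) * dd z w = 0 := by rw [← p3_sub, h, sub_self]
  have h2 : dd z w = 0 := by
    rcases mul_eq_zero.mp h1 with h3 | h3
    · exact absurd (sub_eq_zero.mp h3) hne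
    · exact h3
  have h3 := congrArg Complex.im h
  rw [im_p3, im_p3] at h3
  have f1 := factor_pos hz
  have f2 := factor_pos hw
  rcases lt_trichotomy z.im 0 with hi | hi | hi
  · have hwi : w.im < 0 := by
      by_contra hcon
      push Not at hcon
      have g1 : z.im * (1 + 2 * al * z.re + z.re ^ 2 - z.im ^ 2 / 3) < 0 :=
        mul_neg_of_neg_of_pos hi f1
      have g2 : 0 ≤ w.im * (1 + 2 * al * w.re + w.re ^ 2 - w.im ^ 2 / 3) :=
        mul_nonneg hcon f2.le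
      linarith
    have hz' : (starRingEnd ℂ) z ∈ ball (0:ℂ) 1 := by
      rw [mem_ball_zero_iff] at hz ⊢; rwa [RCLike.norm_conj]
    have hw' : (starRingEnd ℂ) w ∈ ball (0:ℂ) 1 := by
      rw [mem_ball_zero_iff] at hw ⊢; rwa [RCLike.norm_conj]
    refine dd_ne_upper hz' hw' (by simpa using hi) (by simpa using hwi) ?_
    rw [dd_conj, h2, map_zero]
  · have hwi : w.im = 0 := by
      rw [hi, zero_mul] at h3
      rcases mul_eq_zero.mp h3.symm with h4 | h4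
      · exact h4
      · linarith
    exact dd_real hi hwi h2
  · have hwi : 0 < w.im := by
      by_contra hcon
      push Not at hcon
      have g1 : 0 < z.im * (1 + 2 * al * z.re + z.re ^ 2 - z.im ^ 2 / 3) := mul_pos hi f1
      have g2 : w.im * (1 + 2 * al * w.re + w.re ^ 2 - w.im ^ 2 / 3) ≤ 0 :=
        mul_nonpos_of_nonpos_of_nonneg hcon f2.le
      linarith
    exact dd_ne_upper hz hw hi hwi h2

lemma p3_mem : IsUnivPoly 3 p3 := by
  refine ⟨?_, ?_, ?_, p3_inj⟩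
  · unfold p3; compute_degree
  · simp [p3]
  · simp [p3, Polynomial.coeff_X_pow]

lemma map_R3 : Q3 ((al : ℝ) : ℂ) ((1 / 3 : ℝ) : ℂ) = R3.map (algebraMap ℝ ℂ) := by
  ext j
  rw [Polynomial.coeff_map, coeff_Q3, coeff_R3]
  split_ifs <;> simp [al]

lemma Iq_p3 (k : ℕ) : Iq ((2 * k : ℕ) : ℝ) p3 = val3 k := by
  rw [Iq_Q3 (a := ((al : ℝ) : ℂ)) (b := ((1 / 3 : ℝ) : ℂ)) (fun z => by rw [p3_eval]; push_cast; ring) k,
    val3]
  congr 1
  refine Finset.sum_congr rfl fun j _ => ?_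
  rw [map_R3, ← Polynomial.map_pow, Polynomial.coeff_map, norm_algebraMap', Real.norm_eq_abs,
    sq_abs]

lemma val3_one : val3 1 = 4 * Real.pi := by
  have hs : √2 * √2 = 2 := Real.mul_self_sqrt (by norm_num)
  unfold val3
  simp only [pow_one, mul_one, Finset.sum_range_succ, Finset.sum_range_zero, coeff_R3]
  norm_num
  have : (2 * √2 / 3) ^ 2 = 8 / 9 := by nlinarith
  nlinarith [Real.pi_pos]

/-! ### Degree two, all exponents -/

/-- `∫ |1 + s e^{it}|^q dt`. -/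
noncomputable def J (q s : ℝ) : ℝ :=
  ∫ t in (0:ℝ)..(2 * Real.pi), ‖1 + (s : ℂ) * exp (t * I)‖ ^ q

lemma exists_coeff (q : ℝ) : ∃ c : ℕ → ℂ, ∀ s : ℝ, 0 ≤ s → s < 1 →
    HasSum (fun j => ‖c j‖ ^ 2 * (s ^ 2) ^ j) ((2 * Real.pi)⁻¹ * J q s) := by
  set h : ℂ → ℂ := fun z => (1 + z) ^ ((q / 2 : ℝ) : ℂ) with hh
  have hd : DifferentiableOn ℂ h (ball 0 1) := by
    intro z hz
    rw [mem_ball_zero_iff] at hz
    have hs : 1 + z ∈ slitPlane := by
      left
      have := (abs_le.mp (Complex.abs_re_le_norm z)).1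
      simp only [Complex.add_re, Complex.one_re]
      linarith
    exact (DifferentiableAt.cpow (by fun_prop) (by fun_prop) hs).differentiableWithinAt
  set c : ℕ → ℂ := fun n => ((n.factorial : ℂ))⁻¹ * iteratedDeriv n h 0 with hc
  have hrep : ∀ z ∈ ball (0:ℂ) 1, HasSum (fun j => c j * z ^ j) (h z) := by
    intro z hz
    have := Complex.hasSum_taylorSeries_on_ball hd hz
    simp only [sub_zero, smul_eq_mul] at this
    refine this.congr_fun ?_ |> fun h => h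
    intro j
    simp only [hc]
    ring
  refine ⟨c, fun s hs0 hs1 => ?_⟩
  have h1 := parseval_hasSum hs0 (summable_of_hasSum hrep hs0 hs1)
    (fun z hz => hrep z (by rw [mem_ball_zero_iff, hz]; exact hs1))
  have h2 : (fun θ : ℝ => ‖h (s * exp (θ * I))‖ ^ 2)
      = fun θ : ℝ => ‖1 + (s : ℂ) * exp (θ * I)‖ ^ q := by
    funext θ
    simp only [hh]
    rw [Complex.norm_cpow_real, ← Real.rpow_natCast, ← Real.rpow_mul (norm_nonneg _)]
    congr 1
    push_cast; ring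
  rw [h2] at h1
  exact h1

lemma J_mono (q : ℝ) {s t : ℝ} (hs0 : 0 ≤ s) (hst : s ≤ t) (ht : t < 1) : J q s ≤ J q t := by
  obtain ⟨c, hc⟩ := exists_coeff q
  have h1 := hc s hs0 (lt_of_le_of_lt hst ht)
  have h2 := hc t (hs0.trans hst) ht
  have h3 := hasSum_le (fun j => mul_le_mul_of_nonneg_left
    (pow_le_pow_left₀ (sq_nonneg s) (pow_le_pow_left₀ hs0 hst 2) j) (sq_nonneg ‖c j‖)) h1 h2
  have := Real.pi_pos
  have h4 : 0 < (2 * Real.pi)⁻¹ := by positivity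
  exact le_of_mul_le_mul_left h3 h4

lemma rotate (q : ℝ) (a : ℂ) :
    ∫ t in (0:ℝ)..(2 * Real.pi), ‖1 + a * exp (t * I)‖ ^ q = J q ‖a‖ := by
  set g : ℝ → ℝ := fun t => ‖1 + ((‖a‖ : ℝ) : ℂ) * exp (t * I)‖ ^ q with hg
  have h1 : (fun t : ℝ => ‖1 + a * exp (t * I)‖ ^ q) = fun t => g (t + arg a) := by
    funext t
    simp only [hg]
    congr 3
    conv_lhs => rw [← Complex.norm_mul_exp_arg_mul_I a]
    rw [mul_assoc, ← Complex.exp_add]
    congr 2
    push_cast; ring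
  have hper : Function.Periodic g (2 * Real.pi) := by
    intro t
    simp only [hg]
    congr 4
    push_cast
    rw [add_mul, Complex.exp_add, Complex.exp_two_pi_mul_I, mul_one]
  rw [h1, intervalIntegral.integral_comp_add_right]
  have := hper.intervalIntegral_add_eq (arg a) 0
  rw [zero_add] at this ⊢
  rw [add_comm (2 * Real.pi) (arg a), this]
  rfl

lemma Iq_two {p : ℂ[X]} {a : ℂ} (hp : ∀ z : ℂ, p.eval z = z + a * z ^ 2) (q : ℝ) :
    Iq q p = J q ‖a‖ := by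
  rw [← rotate]
  unfold Iq
  congr 1
  funext t
  have h1 : p.eval (exp (t * I)) = exp (t * I) * (1 + a * exp (t * I)) := by
    rw [hp]; ring
  rw [h1, norm_mul, Complex.norm_exp_ofReal_mul_I, one_mul]

/-- `z + z²/2`. -/
noncomputable def p2 : ℂ[X] := X + C (1 / 2 : ℂ) * X ^ 2

lemma p2_eval (z : ℂ) : p2.eval z = z + (1 / 2 : ℂ) * z ^ 2 := by
  unfold p2; simp

lemma p2_mem : IsUnivPoly 2 p2 := by
  refine ⟨?_, ?_, ?_, ?_⟩
  · unfold p2; compute_degree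
  · simp [p2]
  · simp [p2, Polynomial.coeff_X_pow]
  · intro z hz w hw h
    have h : p2.eval z = p2.eval w := h
    rw [p2_eval, p2_eval] at h
    have h1 : (z - w) * (2 + (z + w)) = 0 := by linear_combination 2 * h
    rcases mul_eq_zero.mp h1 with h2 | h2
    · exact sub_eq_zero.mp h2
    · exfalso
      rw [mem_ball_zero_iff] at hz hw
      have h3 : ‖z + w‖ = 2 := by
        rw [show z + w = -2 by linear_combination h2]; norm_num
      have h4 := norm_add_le z w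
      linarith

/-- **Result.**
(1) For every real `q > 0`, `M_{2,q}` is the maximum and equals `∫ |1 + e^{it}/2|^q dt`
    (the value at `z + z²/2`).
(2) For every `k`, `M_{3,2k} = 2π ∑_j c_j²`, where `c_j` are the coefficients of
    `(1 + (2√2/3) X + X²/3)^k` (the value at `z + (2√2/3) z² + z³/3`).
(3) In particular `M_{3,2} = 4π`. -/
theorem result :
    (∀ q : ℝ, 0 < q →
      IsGreatest {x : ℝ | ∃ p : ℂ[X], IsUnivPoly 2 p ∧ x = Iq q p}
        (∫ t in (0:ℝ)..(2 * Real.pi), ‖1 + (1 / 2 : ℂ) * exp (t * I)‖ ^ q)) ∧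
    (∀ k : ℕ,
      IsGreatest {x : ℝ | ∃ p : ℂ[X], IsUnivPoly 3 p ∧ x = Iq ((2 * k : ℕ) : ℝ) p}
        (2 * Real.pi * ∑ j ∈ Finset.range (2 * k + 1),
          (((1 + C (2 * √2 / 3) * X + C (1 / 3) * X ^ 2 : ℝ[X]) ^ k).coeff j) ^ 2)) ∧
    IsGreatest {x : ℝ | ∃ p : ℂ[X], IsUnivPoly 3 p ∧ x = Iq 2 p} (4 * Real.pi) := by
  refine ⟨fun q _ => ⟨⟨p2, p2_mem, ?_⟩, ?_⟩, fun k => ⟨⟨p3, p3_mem, ?_⟩, ?_⟩,
    ⟨⟨p3, p3_mem, ?_⟩, ?_⟩⟩
  · rw [Iq_two p2_eval, rotate]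
  · rintro x ⟨p, hp, rfl⟩
    rw [Iq_two (eval2 hp), rotate]
    apply J_mono q (norm_nonneg _) _ (by norm_num)
    have h1 : ‖(1 / 2 : ℂ)‖ = 1 / 2 := by norm_num
    rw [h1]
    exact bound_two hp
  · exact (Iq_p3 k).symm
  · rintro x ⟨p, hp, rfl⟩
    exact Iq_le hp k
  · have h := Iq_p3 1
    rw [val3_one] at h
    rw [← h]
    norm_num
  · rintro x ⟨p, hp, rfl⟩
    have h := Iq_le hp 1
    rw [val3_one] at h
    have e : ((2 * 1 : ℕ) : ℝ) = 2 := by norm_num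
    rwa [e] at h

end Pool.Agent.Results.MP_d3fa2a_an.SmallDegree
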